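import Pool.Agent.Lib.ZFModel1.Names

/-! The forcing relation of the symmetric extension, and names for definable sets. -/

namespace Pool.Agent.Lib.ZFModel1
open Pool.Agent.Lib.ZFModel (Fml cons Sat IsZF IsZFC lift comp_cons cons_agree cons_lift
  sat_congr sat_rename sat_neg sat_and sat_ex cons_zero cons_succ cons_one cons_two cons_three)
open Name

variable {P : Type 1} (Γ : Type) [Group Γ] [MulAction Γ P] [Preorder P] [S : SymSys P Γ]

/-- The forcing relation; quantifiers range over hereditarily symmetric names. -/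
def Forces : Fml → P → (ℕ → Name P) → Prop
  | .mem i j, p, v => MemF (v i) (v j) p
  | .eq i j, p, v => EqF (v i) (v j) p
  | .fal, _, _ => False
  | .imp φ ψ, p, v => ∀ q, q ≤ p → Forces φ q v → Forces ψ q v
  | .all φ, p, v => ∀ x, HS Γ x → Forces φ p (cons x v)

variable {Γ}

theorem Forces.mono {φ : Fml} : ∀ {p q : P} {v : ℕ → Name P},
    Forces Γ φ p v → q ≤ p → Forces Γ φ q v := by
  induction φ with
  | mem i j => intro p q v h hq; exact MemF.mono h hq
  | eq i j => intro p q v h hq; exact EqF.mono h hq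
  | fal => intro p q v h _; exact h
  | imp φ ψ _ _ => intro p q v h hq r hr; exact h r (hr.trans hq)
  | all φ ih => intro p q v h hq x hx; exact ih (h x hx) hq

theorem Forces.reg {φ : Fml} : ∀ {p : P} {v : ℕ → Name P},
    (∀ q, q ≤ p → ∃ r, r ≤ q ∧ Forces Γ φ r v) → Forces Γ φ p v := by
  induction φ with
  | mem i j => intro p v h; exact MemF.reg h
  | eq i j => intro p v h; exact EqF.reg h
  | fal => intro p v h; obtain ⟨r, _, h⟩ := h p le_rfl; exact h
  | imp φ ψ _ ih =>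
    intro p v h q hq hφ
    apply ih
    intro r hr
    obtain ⟨s, hs, h1⟩ := h r (hr.trans hq)
    exact ⟨s, hs, h1 s le_rfl (hφ.mono (hs.trans hr))⟩
  | all φ ih =>
    intro p v h x hx
    apply ih
    intro q hq
    obtain ⟨r, hr, h1⟩ := h q hq
    exact ⟨r, hr, h1 x hx⟩

theorem Forces.congr {φ : Fml} : ∀ {p : P} {v w : ℕ → Name P},
    (∀ i < φ.bd, EqF (v i) (w i) p) → Forces Γ φ p v → Forces Γ φ p w := by
  induction φ with
  | mem i j =>
    intro p v w h hf
    exact (MemF.congr_left hf (h i (by simp [Fml.bd]; omega))).congr_right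
      (h j (by simp [Fml.bd]; omega))
  | eq i j =>
    intro p v w h hf
    exact (h i (by simp [Fml.bd]; omega)).symm.trans (EqF.trans hf (h j (by simp [Fml.bd]; omega)))
  | fal => intro p v w _ hf; exact hf
  | imp φ ψ ih1 ih2 =>
    intro p v w h hf q hq hφ
    refine ih2 (fun i hi => (h i (by simp [Fml.bd]; omega)).mono hq) (hf q hq ?_)
    exact ih1 (fun i hi => ((h i (by simp [Fml.bd]; omega)).mono hq).symm) hφ
  | all φ ih =>
    intro p v w h hf x hx
    exact ih (cons_agree (R := fun a b => EqF a b p) (EqF.refl x p) h) (hf x hx)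

theorem Forces.act {φ : Fml} : ∀ (g : Γ) {p : P} {v : ℕ → Name P},
    Forces Γ φ p v → Forces Γ φ (g • p) (fun i => act g (v i)) := by
  induction φ with
  | mem i j => intro g p v h; exact MemF.act g h
  | eq i j => intro g p v h; exact EqF.act g h
  | fal => intro g p v h; exact h
  | imp φ ψ ih1 ih2 =>
    intro g p v h q hq hφ
    have h1 := ih1 g⁻¹ hφ
    simp only [act_inv_act] at h1
    have h2 := ih2 g (h _ (le_act hq) h1)
    rwa [smul_inv_smul] at h2
  | all φ ih =>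
    intro g p v h x hx
    have h1 := ih g (h (Name.act g⁻¹ x) (hx.act g⁻¹))
    rwa [comp_cons (Name.act g), act_act_inv] at h1

theorem forces_rename (φ : Fml) : ∀ (f : ℕ → ℕ) (p : P) (v : ℕ → Name P),
    Forces Γ (φ.rename f) p v ↔ Forces Γ φ p (fun i => v (f i)) := by
  induction φ with
  | mem i j => intro f p v; rfl
  | eq i j => intro f p v; rfl
  | fal => intro f p v; rfl
  | imp φ ψ ih1 ih2 => intro f p v; simp only [Fml.rename, Forces, ih1, ih2]
  | all φ ih => intro f p v; simp only [Fml.rename, Forces, ih, cons_lift]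

theorem forces_neg {φ : Fml} {p : P} {v : ℕ → Name P} :
    Forces Γ φ.neg p v ↔ ∀ q, q ≤ p → ¬ Forces Γ φ q v := Iff.rfl

theorem forces_and {φ ψ : Fml} {p : P} {v : ℕ → Name P} :
    Forces Γ (φ.and ψ) p v ↔ Forces Γ φ p v ∧ Forces Γ ψ p v := by
  constructor
  · intro h
    constructor
    · apply Forces.reg
      intro q hq
      by_contra hc
      exact h q hq fun r hr hφ => absurd ⟨r, hr, hφ⟩ hc
    · apply Forces.reg
      intro q hq
      by_contra hc
      exact h q hq fun r hr _ s hs hψ => hc ⟨s, hs.trans hr, hψ⟩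
  · rintro ⟨h1, h2⟩ q hq h
    exact h q le_rfl (h1.mono hq) q le_rfl (h2.mono hq)

theorem forces_ex {φ : Fml} {p : P} {v : ℕ → Name P} :
    Forces Γ φ.ex p v ↔
      ∀ q, q ≤ p → ∃ r, r ≤ q ∧ ∃ x, HS Γ x ∧ Forces Γ φ r (cons x v) := by
  constructor
  · intro h q hq
    by_contra hc
    exact h q hq fun x hx r hr hφ => hc ⟨r, hr, x, hx, hφ⟩
  · intro h q hq hc
    obtain ⟨r, hr, x, hx, hφ⟩ := h q hq
    exact hc x hx r hr hφ

variable (Γ) in
/-- The extension of `ψ` is covered by a small family of hereditarily symmetric names. -/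
def Cover (ψ : Fml) (v : ℕ → Name P) : Prop :=
  ∃ (κ : Type 1) (B : κ → Name P), (∀ k, HS Γ (B k)) ∧
    ∀ z, HS Γ z → ∀ q, Forces Γ ψ q (cons z v) → ∃ r, r ≤ q ∧ ∃ k, EqF z (B k) r

variable (Γ) in
/-- The name collecting those `B k` that are forced to satisfy `ψ`. -/
def compName (ψ : Fml) (v : ℕ → Name P) {κ : Type 1} (B : κ → Name P) : Name P :=
  Name.mk {a : κ × P // Forces Γ ψ a.2 (cons (B a.1) v)} (fun a => B a.1.1) (fun a => a.1.2)

theorem compName_spec {ψ : Fml} {v : ℕ → Name P} {κ : Type 1} {B : κ → Name P}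
    (hc : ∀ z, HS Γ z → ∀ q, Forces Γ ψ q (cons z v) → ∃ r, r ≤ q ∧ ∃ k, EqF z (B k) r)
    (z : Name P) (hz : HS Γ z) (p : P) :
    MemF z (compName Γ ψ v B) p ↔ Forces Γ ψ p (cons z v) := by
  constructor
  · intro h
    apply Forces.reg
    intro q hq
    obtain ⟨r, hr, j, hj, he⟩ := h q hq
    refine ⟨r, hr, Forces.congr ?_ (j.2.mono hj)⟩
    exact cons_agree (R := fun a b => EqF a b r) he.symm fun i _ => EqF.refl _ _
  · intro h q hq
    obtain ⟨r, hr, k, he⟩ := hc z hz q (h.mono hq)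
    refine ⟨r, hr, ⟨(k, r), ?_⟩, le_rfl, he⟩
    refine Forces.congr ?_ (h.mono (hr.trans hq))
    exact cons_agree (R := fun a b => EqF a b r) he fun i _ => EqF.refl _ _

theorem compName_hs {ψ : Fml} {v : ℕ → Name P} {κ : Type 1} {B : κ → Name P}
    (hv : ∀ i, HS Γ (v i)) (hB : ∀ k, HS Γ (B k))
    (hc : ∀ z, HS Γ z → ∀ q, Forces Γ ψ q (cons z v) → ∃ r, r ≤ q ∧ ∃ k, EqF z (B k) r) :
    HS Γ (compName Γ ψ v B) := by
  refine hs_of ?_ fun a => hB _
  obtain ⟨H, hH, hs⟩ := common_support (Γ := Γ) (v := v) ψ.bd fun i _ => hv i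
  refine ⟨H, hH, fun g hg p => ?_⟩
  refine eqF_of_ext (Γ := Γ) (fun a => (hB _).act g) (fun a => hB _) fun z hz q _ => ?_
  rw [compName_spec hc z hz]
  constructor
  · intro h
    have h1 := h.act g⁻¹
    rw [act_inv_act, compName_spec hc _ (hz.act g⁻¹)] at h1
    have h2 := h1.act g
    rw [smul_inv_smul, comp_cons (Name.act g), act_act_inv] at h2
    refine Forces.congr ?_ h2
    exact cons_agree (R := fun a b => EqF a b q) (EqF.refl _ _) fun i hi => hs g hg i (by omega) q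
  · intro h
    have h1 := h.act g⁻¹
    rw [comp_cons (Name.act g⁻¹)] at h1
    have h2 : Forces Γ ψ (g⁻¹ • q) (cons (Name.act g⁻¹ z) v) := by
      refine Forces.congr ?_ h1
      exact cons_agree (R := fun a b => EqF a b (g⁻¹ • q)) (EqF.refl _ _)
        fun i hi => hs g⁻¹ (H.inv_mem hg) i (by omega) _
    rw [← compName_spec hc _ (hz.act g⁻¹)] at h2
    have h3 := h2.act g
    rwa [smul_inv_smul, act_act_inv] at h3

theorem Cover.exists_name {ψ : Fml} {v : ℕ → Name P} (hv : ∀ i, HS Γ (v i))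
    (h : Cover Γ ψ v) :
    ∃ x, HS Γ x ∧ ∀ z, HS Γ z → ∀ p, (MemF z x p ↔ Forces Γ ψ p (cons z v)) := by
  obtain ⟨κ, B, hB, hc⟩ := h
  exact ⟨compName Γ ψ v B, compName_hs hv hB hc, compName_spec hc⟩

/-! The formulas for the set existence principles of ZF. -/

def sepF (φ : Fml) : Fml := (Fml.mem 0 1).and (φ.rename (cons 0 fun n => n + 2))
def pairF : Fml := .imp (Fml.eq 0 1).neg (.eq 0 2)
def unionF : Fml := ((Fml.mem 0 2).and (.mem 1 0)).ex
def powF : Fml := .all (.imp (.mem 0 1) (.mem 0 2))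
def interF : Fml := (Fml.mem 0 1).and (.mem 0 2)
/-- In the environment `z, a, v`: there is `x ∈ a` such that `z` is the unique `y` with
`φ (y, x, v)`. -/
def replF (φ : Fml) : Fml :=
  ((Fml.mem 0 2).and ((φ.rename (cons 1 (cons 0 fun n => n + 3))).and
    (.all (.imp (φ.rename (cons 0 (cons 1 fun n => n + 4))) (.eq 0 2))))).ex

theorem cover_of_mem {ψ : Fml} {v : ℕ → Name P} {a : Name P} (ha : HS Γ a)
    (h : ∀ z q, Forces Γ ψ q (cons z v) → MemF z a q) : Cover Γ ψ v := by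
  refine ⟨a.Idx, a.ch, ha.ch, fun z _ q hq => ?_⟩
  obtain ⟨r, hr, j, _, he⟩ := h z q hq q le_rfl
  exact ⟨r, hr, j, he⟩

theorem cover_sep (φ : Fml) {v : ℕ → Name P} (hv : ∀ i, HS Γ (v i)) : Cover Γ (sepF φ) v :=
  cover_of_mem (hv 0) fun _ _ h => (forces_and.1 h).1

theorem cover_pair {v : ℕ → Name P} (hv : ∀ i, HS Γ (v i)) : Cover Γ pairF v := by
  refine ⟨ULift Bool, fun b => cond b.down (v 0) (v 1), fun ⟨b⟩ => by cases b <;> exact hv _,
    fun z _ q hq => ?_⟩
  by_cases h : ∃ r, r ≤ q ∧ EqF z (v 0) r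
  · obtain ⟨r, hr, he⟩ := h
    exact ⟨r, hr, ⟨true⟩, he⟩
  · exact ⟨q, le_rfl, ⟨false⟩, hq q le_rfl fun r hr he => h ⟨r, hr, he⟩⟩

theorem cover_union {v : ℕ → Name P} (hv : ∀ i, HS Γ (v i)) : Cover Γ unionF v := by
  refine ⟨Σ i : (v 0).Idx, ((v 0).ch i).Idx, fun a => ((v 0).ch a.1).ch a.2,
    fun a => ((hv 0).ch _).ch _, fun z _ q hq => ?_⟩
  obtain ⟨r, hr, x, _, h⟩ := forces_ex.1 hq q le_rfl
  obtain ⟨h1, h2⟩ := forces_and.1 h
  obtain ⟨s, hs, i, _, he⟩ := h1 r le_rfl
  have h3 : MemF z ((v 0).ch i) s := MemF.congr_right (MemF.mono h2 hs) he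
  obtain ⟨t, ht, j, _, he'⟩ := h3 s le_rfl
  exact ⟨t, ht.trans (hs.trans hr), ⟨i, j⟩, he'⟩

theorem cover_pow {v : ℕ → Name P} (hv : ∀ i, HS Γ (v i)) : Cover Γ powF v := by
  let sub : (((v 0).Idx × P) → Prop) → Name P := fun T =>
    Name.mk {a : (v 0).Idx × P // T a} (fun a => (v 0).ch a.1.1) (fun a => a.1.2)
  refine ⟨{T // HS Γ (sub T)}, fun T => sub T.1, fun T => T.2, fun z hz q hq => ?_⟩
  have hv' : ∀ i, HS Γ (cons z v i) := by
    intro i; cases i
    · exact hz
    · exact hv _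
  have hc : ∀ y, HS Γ y → ∀ q, Forces Γ interF q (cons y (cons z v)) →
      ∃ r, r ≤ q ∧ ∃ k, EqF y ((v 0).ch k) r := by
    intro y _ r hr
    obtain ⟨s, hs, j, _, he⟩ := (forces_and.1 hr).2 r le_rfl
    exact ⟨s, hs, j, he⟩
  have h1 := compName_hs hv' (hv 0).ch hc
  refine ⟨q, le_rfl, ⟨fun a => Forces Γ interF a.2 (cons ((v 0).ch a.1) (cons z v)), h1⟩, ?_⟩
  refine eqF_of_ext (Γ := Γ) hz.ch h1.ch fun y hy r hr => ?_
  refine Iff.trans ?_ (compName_spec hc y hy r).symm
  rw [interF, forces_and]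
  exact ⟨fun h => ⟨h, hq y hy r hr h⟩, fun h => h.1⟩

theorem cover_repl (φ : Fml) (v : ℕ → Name P) : Cover Γ (replF φ) v := by
  classical
  let T : (v 0).Idx × P → Name P → Prop := fun a y =>
    HS Γ y ∧ Forces Γ φ a.2 (cons y (cons ((v 0).ch a.1) fun n => v (n + 1)))
  refine ⟨{a // ∃ y, T a y}, fun a => a.2.choose, fun a => a.2.choose_spec.1, fun z hz q hq => ?_⟩
  obtain ⟨r, hr, x, hx, h⟩ := forces_ex.1 hq q le_rfl
  obtain ⟨h1, h2⟩ := forces_and.1 h
  obtain ⟨h2, h3⟩ := forces_and.1 h2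
  obtain ⟨s, hs, i, _, he⟩ := h1 r le_rfl
  rw [forces_rename] at h2
  have e1 : (fun i => cons x (cons z v) (cons 1 (cons 0 fun n => n + 3) i)) =
      cons z (cons x fun n => v (n + 1)) := by
    funext i; rcases i with _ | _ | i <;> rfl
  rw [e1] at h2
  have h4 : ∃ y, T (i, s) y := by
    refine ⟨z, hz, Forces.congr ?_ (h2.mono hs)⟩
    refine cons_agree (R := fun a b => EqF a b s) (EqF.refl _ _) ?_
    exact cons_agree (R := fun a b => EqF a b s) he fun i _ => EqF.refl _ _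
  refine ⟨s, hs.trans hr, ⟨(i, s), h4⟩, ?_⟩
  have h5 := h3 h4.choose h4.choose_spec.1 s hs
  rw [forces_rename] at h5
  have e2 : (fun i => cons h4.choose (cons x (cons z v)) (cons 0 (cons 1 fun n => n + 4) i)) =
      cons h4.choose (cons x fun n => v (n + 1)) := by
    funext i; rcases i with _ | _ | i <;> rfl
  rw [e2] at h5
  refine EqF.symm (h5 (Forces.congr ?_ h4.choose_spec.2))
  refine cons_agree (R := fun a b => EqF a b s) (EqF.refl _ _) ?_
  exact cons_agree (R := fun a b => EqF a b s) he.symm fun i _ => EqF.refl _ _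

end Pool.Agent.Lib.ZFModel1
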