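import Pool.Agent.Lib.ZFModel1.Forces
import Mathlib.Data.Set.Countable
import Mathlib.Logic.Equiv.List

/-! A countable set of names closed under witnesses, and a filter generic for it. -/

namespace Pool.Agent.Lib.ZFModel1
open Pool.Agent.Lib.ZFModel (Fml cons Sat IsZF IsZFC lift comp_cons cons_agree cons_lift
  sat_congr sat_rename sat_neg sat_and sat_ex cons_zero cons_succ cons_one cons_two cons_three)
open Name

universe u

theorem countable_lists {X : Type u} {s : Set X} (hs : s.Countable) :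
    {l : List X | ∀ x ∈ l, x ∈ s}.Countable := by
  have := hs.to_subtype
  refine (Set.countable_range (fun l : List s => l.map Subtype.val)).mono ?_
  intro l hl
  refine ⟨l.pmap (fun x hx => ⟨x, hx⟩) hl, ?_⟩
  simp [List.map_pmap]

theorem exists_hull {X : Type u} {K : Type} [Countable K] (Q : X → Prop)
    (Rel : K → List X → X → Prop) :
    ∃ N : Set X, N.Countable ∧ (∀ x ∈ N, Q x) ∧
      ∀ k l, (∀ x ∈ l, x ∈ N) → (∃ x, Q x ∧ Rel k l x) → ∃ x ∈ N, Rel k l x := by
  classical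
  let step : Set X → Set X := fun s =>
    s ∪ ⋃ k, ⋃ l ∈ {l : List X | ∀ x ∈ l, x ∈ s}, ⋃ h : (∃ x, Q x ∧ Rel k l x), {h.choose}
  let T : ℕ → Set X := fun n => step^[n] ∅
  have hT : ∀ n, T (n + 1) = step (T n) := fun n => Function.iterate_succ_apply' step n ∅
  have hc : ∀ n, (T n).Countable := by
    intro n
    induction n with
    | zero => exact Set.countable_empty
    | succ n ih =>
      rw [hT]
      refine ih.union (Set.countable_iUnion fun k => (countable_lists ih).biUnion fun l _ => ?_)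
      exact Set.countable_iUnion fun h => Set.countable_singleton _
  have hQ : ∀ n, ∀ x ∈ T n, Q x := by
    intro n
    induction n with
    | zero => intro x hx; exact absurd hx (Set.notMem_empty x)
    | succ n ih =>
      rw [hT]
      rintro x (hx | hx)
      · exact ih x hx
      · simp only [Set.mem_iUnion, Set.mem_singleton_iff] at hx
        obtain ⟨k, l, _, h, rfl⟩ := hx
        exact h.choose_spec.1
  have hmono : ∀ m n, m ≤ n → T m ⊆ T n := by
    intro m n h
    induction h with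
    | refl => exact le_rfl
    | step _ ih => rw [hT]; exact ih.trans Set.subset_union_left
  refine ⟨⋃ n, T n, Set.countable_iUnion hc, ?_, ?_⟩
  · intro x hx
    obtain ⟨n, hn⟩ := Set.mem_iUnion.1 hx
    exact hQ n x hn
  · intro k l hl h
    have : ∃ n, ∀ x ∈ l, x ∈ T n := by
      clear h
      induction l with
      | nil => exact ⟨0, by simp⟩
      | cons a l ih =>
        obtain ⟨n, hn⟩ := ih fun x hx => hl x (List.mem_cons_of_mem _ hx)
        obtain ⟨m, hm⟩ := Set.mem_iUnion.1 (hl a List.mem_cons_self)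
        refine ⟨max m n, fun x hx => ?_⟩
        rcases List.mem_cons.1 hx with rfl | hx
        · exact hmono _ _ (le_max_left _ _) hm
        · exact hmono _ _ (le_max_right _ _) (hn x hx)
    obtain ⟨n, hn⟩ := this
    refine ⟨h.choose, Set.mem_iUnion.2 ⟨n + 1, ?_⟩, h.choose_spec.2⟩
    rw [hT]
    right
    simp only [Set.mem_iUnion, Set.mem_singleton_iff]
    exact ⟨k, l, hn, h, rfl⟩

theorem exists_generic {P : Type 1} [Preorder P] {ι : Type u} [Countable ι] (D : ι → P → Prop)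
    (hD : ∀ i p, ∃ q, q ≤ p ∧ D i q) (p0 : P) :
    ∃ G : P → Prop, G p0 ∧ (∀ p q, G p → p ≤ q → G q) ∧
      (∀ p q, G p → G q → ∃ r, G r ∧ r ≤ p ∧ r ≤ q) ∧ ∀ i, ∃ p, G p ∧ D i p := by
  obtain ⟨f, hf⟩ := exists_surjective_nat (Option ι)
  have h1 : ∀ n p, ∃ q, q ≤ p ∧ ∀ i, f n = some i → D i q := by
    intro n p
    cases h : f n with
    | none => exact ⟨p, le_rfl, fun i hi => by cases hi⟩
    | some j =>
      obtain ⟨q, hq, hd⟩ := hD j p
      exact ⟨q, hq, fun i hi => by cases hi; exact hd⟩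
  choose nx hnx1 hnx2 using h1
  let s : ℕ → P := fun n => Nat.rec p0 (fun n p => nx n p) n
  have hs : ∀ m n, m ≤ n → s n ≤ s m := by
    intro m n h
    induction h with
    | refl => exact le_rfl
    | step _ ih => exact (hnx1 _ _).trans ih
  refine ⟨fun q => ∃ n, s n ≤ q, ⟨0, le_rfl⟩, ?_, ?_, ?_⟩
  · rintro p q ⟨n, hn⟩ h; exact ⟨n, hn.trans h⟩
  · rintro p q ⟨m, hm⟩ ⟨n, hn⟩
    exact ⟨s (max m n), ⟨_, le_rfl⟩, (hs _ _ (le_max_left _ _)).trans hm,
      (hs _ _ (le_max_right _ _)).trans hn⟩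
  · intro i
    obtain ⟨n, hn⟩ := hf (some i)
    exact ⟨s (n + 1), ⟨n + 1, le_rfl⟩, hnx2 n _ i hn⟩

/-- The environment given by a list, padded by `x0`. -/
def envOf {X : Type u} (x0 : X) : List X → ℕ → X
  | [] => fun _ => x0
  | x :: l => cons x (envOf x0 l)

theorem envOf_mem {X : Type u} {x0 : X} {s : Set X} (h0 : x0 ∈ s) :
    ∀ l : List X, (∀ x ∈ l, x ∈ s) → ∀ i, envOf x0 l i ∈ s := by
  intro l
  induction l with
  | nil => intro _ i; exact h0
  | cons a l ih =>
    intro h i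
    cases i with
    | zero => exact h a List.mem_cons_self
    | succ i => exact ih (fun x hx => h x (List.mem_cons_of_mem _ hx)) i

theorem exists_envOf {X : Type u} (x0 : X) (n : ℕ) : ∀ v : ℕ → X,
    ∃ l : List X, (∀ x ∈ l, ∃ i, x = v i) ∧ ∀ i < n, envOf x0 l i = v i := by
  induction n with
  | zero => intro v; exact ⟨[], by simp, fun i hi => absurd hi (by omega)⟩
  | succ n ih =>
    intro v
    obtain ⟨l, h1, h2⟩ := ih (fun i => v (i + 1))
    refine ⟨v 0 :: l, fun x hx => ?_, fun i hi => ?_⟩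
    · rcases List.mem_cons.1 hx with rfl | hx
      · exact ⟨0, rfl⟩
      · obtain ⟨i, hi⟩ := h1 x hx; exact ⟨i + 1, hi⟩
    · cases i with
      | zero => rfl
      | succ i => exact h2 i (by omega)

variable {P : Type 1} (Γ : Type) [Group Γ] [MulAction Γ P] [Preorder P] [S : SymSys P Γ]

/-- The empty name. -/
def emptyName : Name P := Name.mk PEmpty PEmpty.elim PEmpty.elim

theorem emptyName_hs : HS Γ (emptyName : Name P) :=
  ⟨⟨⊤, S.top_mem, fun _ _ _ => ⟨fun i => i.elim, fun i => i.elim⟩⟩, fun i => i.elim⟩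

/-- A set of names closed under witnesses with a filter generic for it. -/
structure Gen where
  N : Set (Name P)
  cnt : N.Countable
  hs : ∀ x ∈ N, HS Γ x
  empty_mem : emptyName ∈ N
  G : P → Prop
  up : ∀ p q, G p → p ≤ q → G q
  dir : ∀ p q, G p → G q → ∃ r, G r ∧ r ≤ p ∧ r ≤ q
  comp : ∀ ψ (l : List (Name P)), (∀ x ∈ l, x ∈ N) → Cover Γ ψ (envOf emptyName l) →
    ∃ b ∈ N, ∀ z, HS Γ z → ∀ p, (MemF z b p ↔ Forces Γ ψ p (cons z (envOf emptyName l)))
  dec : ∀ φ (l : List (Name P)), (∀ x ∈ l, x ∈ N) →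
    ∃ p, G p ∧ (Forces Γ φ p (envOf emptyName l) ∨ ∀ q, q ≤ p → ¬ Forces Γ φ q (envOf emptyName l))
  wit : ∀ φ (l : List (Name P)), (∀ x ∈ l, x ∈ N) →
    ∃ p, G p ∧ (Forces Γ (.all φ) p (envOf emptyName l) ∨
      ∃ x ∈ N, ∀ q, q ≤ p → ¬ Forces Γ φ q (cons x (envOf emptyName l)))
  child : ∀ x ∈ N, ∀ y ∈ N, ∃ p, G p ∧
    ((∃ j, y.ch j ∈ N ∧ p ≤ y.cond j ∧ EqF x (y.ch j) p) ∨ ∀ q, q ≤ p → ¬ MemF x y q)

end Pool.Agent.Lib.ZFModel1
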