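import Pool.Agent.Lib.ZFModel1.Generic
import Mathlib.Logic.Small.Basic
import Mathlib.Data.Countable.Small

/-! The symmetric extension as a quotient of the countable set of names; the truth lemma; ZF. -/

namespace Pool.Agent.Lib.ZFModel1
open Pool.Agent.Lib.ZFModel (Fml cons Sat IsZF IsZFC lift comp_cons cons_agree cons_lift
  sat_congr sat_rename sat_neg sat_and sat_ex cons_zero cons_succ cons_one cons_two cons_three)
open Name

variable {P : Type 1} {Γ : Type} [Group Γ] [MulAction Γ P] [Preorder P] [S : SymSys P Γ]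

namespace Gen
variable (g : Gen (P := P) Γ)

theorem ne : ∃ p, g.G p := by
  obtain ⟨p, hp, _⟩ := g.dec .fal [] (by simp)
  exact ⟨p, hp⟩

def setoid : Setoid g.N where
  r x y := ∃ p, g.G p ∧ EqF x.1 y.1 p
  iseqv := ⟨fun x => by obtain ⟨p, hp⟩ := g.ne; exact ⟨p, hp, EqF.refl _ _⟩,
    fun ⟨p, hp, h⟩ => ⟨p, hp, h.symm⟩,
    fun ⟨p, hp, h⟩ ⟨q, hq, h'⟩ => by
      obtain ⟨r, hr, h1, h2⟩ := g.dir p q hp hq
      exact ⟨r, hr, (h.mono h1).trans (h'.mono h2)⟩⟩

instance : Small.{1} (Quotient g.setoid) :=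
  have := g.cnt.to_subtype
  inferInstance

/-- The universe of the symmetric extension. -/
def M : Type 1 := Shrink.{1} (Quotient g.setoid)

noncomputable def cl (x : g.N) : g.M := equivShrink _ (Quotient.mk g.setoid x)

theorem cl_surj (a : g.M) : ∃ x, g.cl x = a := by
  obtain ⟨y, rfl⟩ := (equivShrink (Quotient g.setoid)).surjective a
  obtain ⟨x, rfl⟩ := Quotient.exists_rep y
  exact ⟨x, rfl⟩

theorem cl_eq {x y : g.N} : g.cl x = g.cl y ↔ ∃ p, g.G p ∧ EqF x.1 y.1 p :=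
  (equivShrink _).apply_eq_iff_eq.trans Quotient.eq

/-- Membership in the symmetric extension. -/
def E (a b : g.M) : Prop := ∃ x y p, g.cl x = a ∧ g.cl y = b ∧ g.G p ∧ MemF x.1 y.1 p

theorem E_cl {x y : g.N} : g.E (g.cl x) (g.cl y) ↔ ∃ p, g.G p ∧ MemF x.1 y.1 p := by
  constructor
  · rintro ⟨x', y', p, hx, hy, hp, h⟩
    obtain ⟨q, hq, h1⟩ := g.cl_eq.1 hx
    obtain ⟨r, hr, h2⟩ := g.cl_eq.1 hy
    obtain ⟨s, hs, hsp, hsq⟩ := g.dir p q hp hq
    obtain ⟨t, ht, hts, htr⟩ := g.dir s r hs hr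
    exact ⟨t, ht, ((h.mono (hts.trans hsp)).congr_left (h1.mono (hts.trans hsq))).congr_right
      (h2.mono htr)⟩
  · rintro ⟨p, hp, h⟩; exact ⟨x, y, p, rfl, rfl, hp, h⟩

/-- Elements of `cl y` are values of children of `y`. -/
theorem E_cl_child {a : g.M} {y : g.N} :
    g.E a (g.cl y) ↔ ∃ j, ∃ h : y.1.ch j ∈ g.N, g.G (y.1.cond j) ∧ a = g.cl ⟨_, h⟩ := by
  obtain ⟨x, rfl⟩ := g.cl_surj a
  rw [E_cl]
  constructor
  · rintro ⟨p, hp, h⟩
    obtain ⟨q, hq, h1 | h1⟩ := g.child x.1 x.2 y.1 y.2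
    · obtain ⟨j, hj, h2, h3⟩ := h1
      exact ⟨j, hj, g.up _ _ hq h2, g.cl_eq.2 ⟨q, hq, h3⟩⟩
    · obtain ⟨r, _, h2, h3⟩ := g.dir p q hp hq
      exact absurd (h.mono h2) (h1 r h3)
  · rintro ⟨j, hj, h1, h2⟩
    obtain ⟨p, hp, h3⟩ := g.cl_eq.1 h2
    obtain ⟨r, hr, h4, h5⟩ := g.dir _ _ hp h1
    exact ⟨r, hr, (memF_ch y.1 j h5).congr_left (h3.mono h4).symm⟩

def e0 : g.N := ⟨emptyName, g.empty_mem⟩

theorem val_envOf (l : List g.N) :
    (fun i => (envOf g.e0 l i).1) = envOf emptyName (l.map Subtype.val) := by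
  induction l with
  | nil => rfl
  | cons a l ih =>
    simp only [envOf, List.map_cons]
    rw [← ih]; exact comp_cons Subtype.val _ _

theorem map_val_mem (l : List g.N) : ∀ x ∈ l.map Subtype.val, x ∈ g.N := by
  intro x hx
  obtain ⟨y, _, rfl⟩ := List.mem_map.1 hx
  exact y.2

theorem truth_list (φ : Fml) : ∀ l : List g.N,
    Sat g.E φ (fun i => g.cl (envOf g.e0 l i)) ↔
      ∃ p, g.G p ∧ Forces Γ φ p (fun i => (envOf g.e0 l i).1) := by
  induction φ with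
  | mem i j => intro l; exact g.E_cl
  | eq i j => intro l; exact g.cl_eq
  | fal => intro l; exact ⟨False.elim, fun ⟨_, _, h⟩ => h⟩
  | imp φ ψ ih1 ih2 =>
    intro l
    simp only [Sat, ih1, ih2]
    constructor
    · intro h
      obtain ⟨p, hp, h1 | h1⟩ := g.dec φ _ (g.map_val_mem l)
      · rw [← val_envOf] at h1
        obtain ⟨q, hq, h2⟩ := h ⟨p, hp, h1⟩
        exact ⟨q, hq, fun r hr _ => h2.mono hr⟩
      · rw [← val_envOf] at h1
        exact ⟨p, hp, fun q hq h2 => absurd h2 (h1 q hq)⟩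
    · rintro ⟨p, hp, h⟩ ⟨q, hq, h1⟩
      obtain ⟨r, hr, h2, h3⟩ := g.dir p q hp hq
      exact ⟨r, hr, h r h2 (h1.mono h3)⟩
  | all φ ih =>
    intro l
    have key : ∀ x : g.N, Sat g.E φ (cons (g.cl x) fun i => g.cl (envOf g.e0 l i)) ↔
        ∃ p, g.G p ∧ Forces Γ φ p (cons x.1 fun i => (envOf g.e0 l i).1) := by
      intro x
      have := ih (x :: l)
      simp only [envOf] at this
      rwa [comp_cons g.cl, comp_cons Subtype.val] at this
    constructor
    · intro h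
      obtain ⟨p, hp, h1 | ⟨x, hx, h1⟩⟩ := g.wit φ _ (g.map_val_mem l)
      · rw [← val_envOf] at h1
        exact ⟨p, hp, h1⟩
      · rw [← val_envOf] at h1
        obtain ⟨q, hq, h2⟩ := (key ⟨x, hx⟩).1 (h _)
        obtain ⟨r, _, h3, h4⟩ := g.dir p q hp hq
        exact absurd (h2.mono h4) (h1 r h3)
    · rintro ⟨p, hp, h⟩ a
      obtain ⟨x, rfl⟩ := g.cl_surj a
      exact (key x).2 ⟨p, hp, h x.1 (g.hs _ x.2)⟩

/-- The truth lemma. -/
theorem truth (φ : Fml) (v : ℕ → g.N) :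
    Sat g.E φ (fun i => g.cl (v i)) ↔ ∃ p, g.G p ∧ Forces Γ φ p (fun i => (v i).1) := by
  obtain ⟨l, _, hl⟩ := exists_envOf g.e0 φ.bd v
  rw [sat_congr φ _ (fun i => g.cl (envOf g.e0 l i)) fun i hi => by rw [hl i hi], truth_list]
  refine exists_congr fun p => and_congr_right fun _ => ⟨fun h => ?_, fun h => ?_⟩
  · exact Forces.congr (fun i hi => by rw [hl i hi]; exact EqF.refl _ _) h
  · exact Forces.congr (fun i hi => by rw [hl i hi]; exact EqF.refl _ _) h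

theorem exists_set (ψ : Fml) (hc : ∀ v : ℕ → Name P, (∀ i, HS Γ (v i)) → Cover Γ ψ v)
    (v : ℕ → g.M) : ∃ b, ∀ z, g.E z b ↔ Sat g.E ψ (cons z v) := by
  choose w hw using fun i => g.cl_surj (v i)
  obtain ⟨l, _, hl⟩ := exists_envOf g.e0 ψ.bd w
  obtain ⟨b, hb, h⟩ := g.comp ψ _ (g.map_val_mem l)
    (hc _ fun i => g.hs _ (envOf_mem g.empty_mem _ (g.map_val_mem l) i))
  refine ⟨g.cl ⟨b, hb⟩, fun z => ?_⟩
  obtain ⟨x, rfl⟩ := g.cl_surj z
  rw [sat_congr ψ _ (fun i => g.cl (cons x (envOf g.e0 l) i)), truth, E_cl, comp_cons Subtype.val,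
    val_envOf]
  · exact exists_congr fun p => and_congr_right fun _ => h x.1 (g.hs _ x.2) p
  · exact cons_agree (R := fun a b => a = g.cl b) rfl fun i hi => by rw [hl i (by omega), hw]

theorem extensionality (a b : g.M) (h : ∀ x, g.E x a ↔ g.E x b) : a = b := by
  obtain ⟨x, rfl⟩ := g.cl_surj a
  obtain ⟨y, rfl⟩ := g.cl_surj b
  obtain ⟨p, hp, h1⟩ := (g.truth powF (cons x fun _ => y)).1 fun z hz => (h z).1 hz
  obtain ⟨q, hq, h2⟩ := (g.truth powF (cons y fun _ => x)).1 fun z hz => (h z).2 hz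
  obtain ⟨r, hr, h3, h4⟩ := g.dir p q hp hq
  refine g.cl_eq.2 ⟨r, hr, eqF_of_ext (Γ := Γ) (g.hs _ x.2).ch (g.hs _ y.2).ch fun z hz s hs => ?_⟩
  exact ⟨h1 z hz s (hs.trans h3), h2 z hz s (hs.trans h4)⟩

theorem foundation (a : g.M) (h : ∃ x, g.E x a) : ∃ x, g.E x a ∧ ∀ y, g.E y x → ¬ g.E y a := by
  obtain ⟨b, hb⟩ := h
  obtain ⟨x, rfl⟩ := g.cl_surj b
  obtain ⟨m, ⟨hm, hma⟩, hmin⟩ := (Name.child_wf (P := P)).has_min
    {z | ∃ h : z ∈ g.N, g.E (g.cl ⟨z, h⟩) a} ⟨x.1, x.2, hb⟩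
  refine ⟨g.cl ⟨m, hm⟩, hma, fun y hy hya => ?_⟩
  obtain ⟨j, hj, _, rfl⟩ := g.E_cl_child.1 hy
  exact hmin _ ⟨hj, hya⟩ ⟨j, rfl⟩

theorem isZF (hinf : ∃ w : g.M, (∃ e, g.E e w ∧ ∀ x, ¬ g.E x e) ∧
    ∀ x, g.E x w → ∃ y, g.E y w ∧ ∀ z, g.E z y ↔ g.E z x ∨ z = x) : IsZF g.E where
  extensionality := g.extensionality
  foundation := g.foundation
  pairing a b := by
    obtain ⟨c, hc⟩ := g.exists_set pairF (fun _ => cover_pair) (cons a fun _ => b)
    refine ⟨c, fun x => (hc x).trans ?_⟩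
    simp only [pairF, Sat, sat_neg, cons_zero, cons_one, cons_two]
    tauto
  union a := by
    obtain ⟨c, hc⟩ := g.exists_set unionF (fun _ => cover_union) (fun _ => a)
    refine ⟨c, fun x => (hc x).trans ?_⟩
    simp [unionF, Sat]
  powerset a := by
    obtain ⟨c, hc⟩ := g.exists_set powF (fun _ => cover_pow) (fun _ => a)
    exact ⟨c, fun x => (hc x).trans Iff.rfl⟩
  infinity := hinf
  separation φ v a := by
    obtain ⟨c, hc⟩ := g.exists_set (sepF φ) (fun _ => cover_sep φ) (cons a v)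
    refine ⟨c, fun x => (hc x).trans ?_⟩
    rw [sepF, sat_and, sat_rename]
    have : (fun i => cons x (cons a v) (cons 0 (fun n => n + 2) i)) = cons x v := by
      funext i; cases i <;> rfl
    rw [this]; rfl
  replacement φ v a h := by
    obtain ⟨c, hc⟩ := g.exists_set (replF φ) (fun v _ => cover_repl φ v) (cons a v)
    refine ⟨c, fun y => (hc y).trans ?_⟩
    rw [replF, sat_ex]
    refine exists_congr fun x => ?_
    rw [sat_and, sat_and, sat_rename]
    have e1 : (fun i => cons x (cons y (cons a v)) (cons 1 (cons 0 fun n => n + 3) i)) =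
        cons y (cons x v) := by
      funext i; rcases i with _ | _ | i <;> rfl
    have e2 : ∀ z, (fun i => cons z (cons x (cons y (cons a v)))
        (cons 0 (cons 1 fun n => n + 4) i)) = cons z (cons x v) := by
      intro z; funext i; rcases i with _ | _ | i <;> rfl
    rw [e1]
    refine and_congr_right fun hx => ⟨fun h => h.1, fun h1 => ⟨h1, fun z hz => ?_⟩⟩
    rw [sat_rename, e2] at hz
    exact (h x hx).unique hz h1

end Gen

end Pool.Agent.Lib.ZFModel1
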